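import Mathlib

namespace Pool.Agent.Work.MP_b296c2_gt

open Finset

variable {V : Type*} [NormedAddCommGroup V] [InnerProductSpace ℝ V]

/-- `R x y z` stands for `R(x,y)z`. The algebraic symmetries of the curvature tensor of a
Riemannian manifold at a point. -/
structure IsCurvatureTensor (R : V →ₗ[ℝ] V →ₗ[ℝ] V →ₗ[ℝ] V) : Prop where
  anti : ∀ x y z, R x y z = -R y x z
  skew : ∀ x y z w, inner ℝ (R x y z) w = -inner ℝ z (R x y w)
  bianchi : ∀ x y z, R x y z + R y z x + R z x y = 0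

/-- Sectional curvature of the plane spanned by the orthonormal pair `x, y`. -/
noncomputable def sec (R : V →ₗ[ℝ] V →ₗ[ℝ] V →ₗ[ℝ] V) (x y : V) : ℝ :=
  inner ℝ (R x y y) x

/-- `k`-nonnegative sectional curvature: for every orthonormal basis any `k` of the numbers
`sec (e i) (e j)`, `i < j`, have nonnegative sum (equivalently the `k` smallest do). -/
def KNonnegSec (n k : ℕ) (R : V →ₗ[ℝ] V →ₗ[ℝ] V →ₗ[ℝ] V) : Prop :=
  ∀ e : OrthonormalBasis (Fin n) ℝ V, ∀ S : Finset (Fin n × Fin n),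
    (∀ q ∈ S, q.1 < q.2) → S.card = k → 0 ≤ ∑ q ∈ S, sec R (e q.1) (e q.2)

/-- The endomorphism `A` acting as a derivation on covariant `p`-tensors. -/
def derivAct {p : ℕ} (A : V →ₗ[ℝ] V) (φ : (Fin p → V) → ℝ) (X : Fin p → V) : ℝ :=
  -∑ b : Fin p, φ (Function.update X b (A (X b)))

/-- The curvature term of the Bochner (Lichnerowicz) formula on covariant `p`-tensors. -/
noncomputable def bochnerTerm {n p : ℕ} (e : OrthonormalBasis (Fin n) ℝ V)
    (R : V →ₗ[ℝ] V →ₗ[ℝ] V →ₗ[ℝ] V) (φ : (Fin p → V) → ℝ) (X : Fin p → V) : ℝ :=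
  ∑ a : Fin p, ∑ i : Fin n, derivAct (R (e i) (X a)) φ (Function.update X a (e i))

/-- The inner product of covariant `p`-tensors. -/
noncomputable def tensorInner {n p : ℕ} (e : OrthonormalBasis (Fin n) ℝ V) (φ ψ : (Fin p → V) → ℝ) : ℝ :=
  ∑ J : Fin p → Fin n, φ (fun a => e (J a)) * ψ (fun a => e (J a))

/-- Symmetric covariant `p`-tensors. -/
def IsSymmTensor {p : ℕ} (φ : MultilinearMap ℝ (fun _ : Fin p => V) ℝ) : Prop :=
  ∀ (σ : Equiv.Perm (Fin p)) (X : Fin p → V), φ (fun a => X (σ a)) = φ X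

end Pool.Agent.Work.MP_b296c2_gt
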