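import Mathlib
import Pool.Agent.Work.MP_b296c2_gt.Defs

namespace Pool.Agent.Work.MP_b296c2_gt

open Finset

variable {V : Type*} [NormedAddCommGroup V] [InnerProductSpace ℝ V]

/-! ### a weighted sum lemma -/

lemma weighted_sum_nonneg {ι : Type*} [Fintype ι] [DecidableEq ι] (k : ℕ) (hk : 1 ≤ k)
    (s w : ι → ℝ) (hcard : k ≤ Fintype.card ι)
    (hs : ∀ A : Finset ι, A.card = k → 0 ≤ ∑ i ∈ A, s i)
    (hw0 : ∀ i, 0 ≤ w i) (hw1 : ∀ i, w i ≤ 1) (hwk : (k : ℝ) ≤ ∑ i, w i) :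
    0 ≤ ∑ i, w i * s i := by
  classical
  obtain ⟨A, hA, hmin⟩ := exists_min_image (powersetCard k (univ : Finset ι))
    (fun A => ∑ i ∈ A, s i) (by
      rw [powersetCard_nonempty]; simpa using hcard)
  rw [mem_powersetCard] at hA
  have hne : A.Nonempty := by
    rw [← card_pos]; omega
  -- exchange
  have hex : ∀ i ∈ A, ∀ j, j ∉ A → s i ≤ s j := by
    intro i hi j hj
    have hB : insert j (A.erase i) ∈ powersetCard k (univ : Finset ι) := by
      rw [mem_powersetCard]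
      refine ⟨subset_univ _, ?_⟩
      rw [card_insert_of_notMem (by simp [hj]), card_erase_of_mem hi]
      omega
    have h := hmin _ hB
    rw [sum_insert (by simp [hj])] at h
    have h2 := sum_erase_add A s hi
    linarith
  set t := A.sup' hne s with ht
  have ht1 : ∀ i ∈ A, s i ≤ t := fun i hi => le_sup' s hi
  have ht2 : ∀ j, j ∉ A → t ≤ s j := by
    intro j hj
    exact sup'_le hne _ (fun i hi => hex i hi j hj)
  have hsA : 0 ≤ ∑ i ∈ A, s i := hs A hA.2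
  have ht0 : 0 ≤ t := by
    by_contra hneg
    push Not at hneg
    have : ∑ i ∈ A, s i < 0 := sum_neg (fun i hi => lt_of_le_of_lt (ht1 i hi) hneg) hne
    linarith
  have h1 : ∑ i, w i * s i = ∑ i ∈ A, w i * s i + ∑ i ∈ Aᶜ, w i * s i :=
    (sum_add_sum_compl A _).symm
  have h2 : ∑ i ∈ Aᶜ, w i * t ≤ ∑ i ∈ Aᶜ, w i * s i := by
    apply sum_le_sum
    intro j hj
    exact mul_le_mul_of_nonneg_left (ht2 j (by simpa using hj)) (hw0 j)
  have h3 : (∑ i ∈ A, w i) + (∑ i ∈ Aᶜ, w i) = ∑ i, w i := sum_add_sum_compl A _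
  have h4 : ∑ i ∈ A, (s i - w i * s i) ≤ ∑ i ∈ A, (t - w i * t) := by
    apply sum_le_sum
    intro i hi
    have := mul_le_mul_of_nonneg_left (ht1 i hi) (by linarith [hw1 i] : (0 : ℝ) ≤ 1 - w i)
    nlinarith
  rw [sum_sub_distrib, sum_sub_distrib, sum_const, nsmul_eq_mul, hA.2, ← sum_mul] at h4
  rw [← sum_mul] at h2
  rw [h1]
  have h5 : (k : ℝ) * t ≤ (∑ i, w i) * t := mul_le_mul_of_nonneg_right hwk ht0
  rw [← h3, add_mul] at h5
  linarith

/-! ### the operators `D_A` -/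

abbrev Ten (V : Type*) [NormedAddCommGroup V] [InnerProductSpace ℝ V] (p : ℕ) :=
  MultilinearMap ℝ (fun _ : Fin p => V) ℝ

noncomputable def DA {p : ℕ} (A : V →ₗ[ℝ] V) : Ten V p →ₗ[ℝ] Ten V p :=
  ∑ b : Fin p, MultilinearMap.compLinearMapₗ
    (Function.update (fun _ => (LinearMap.id : V →ₗ[ℝ] V)) b A)

lemma DA_apply {p : ℕ} (A : V →ₗ[ℝ] V) (φ : Ten V p) (X : Fin p → V) :
    DA A φ X = ∑ b : Fin p, φ (Function.update X b (A (X b))) := by
  unfold DA
  rw [LinearMap.sum_apply, _root_.sum_apply]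
  apply sum_congr rfl
  intro b _
  rw [MultilinearMap.compLinearMapₗ_apply, MultilinearMap.compLinearMap_apply]
  congr 1
  funext c
  by_cases h : c = b
  · subst h; simp
  · simp [Function.update_of_ne h]

lemma derivAct_eq {p : ℕ} (A : V →ₗ[ℝ] V) (φ : Ten V p) (X : Fin p → V) :
    derivAct A φ X = -DA A φ X := by
  rw [DA_apply]; rfl

lemma DA_add {p : ℕ} (A B : V →ₗ[ℝ] V) (φ : Ten V p) :
    DA (A + B) φ = DA A φ + DA B φ := by
  ext X
  simp only [DA_apply, _root_.add_apply, LinearMap.add_apply,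
    MultilinearMap.map_update_add, sum_add_distrib]

lemma DA_smul {p : ℕ} (c : ℝ) (A : V →ₗ[ℝ] V) (φ : Ten V p) :
    DA (c • A) φ = c • DA A φ := by
  ext X
  simp only [DA_apply, _root_.smul_apply, LinearMap.smul_apply,
    MultilinearMap.map_update_smul, smul_eq_mul, mul_sum]

/-- `D` as a linear map in `A`. -/
noncomputable def DAlin (p : ℕ) (φ : Ten V p) : (V →ₗ[ℝ] V) →ₗ[ℝ] Ten V p where
  toFun A := DA A φ
  map_add' A B := DA_add A B φ
  map_smul' c A := DA_smul c A φ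

lemma DAlin_apply (p : ℕ) (φ : Ten V p) (A : V →ₗ[ℝ] V) : DAlin p φ A = DA A φ := rfl

lemma DA_sum {p : ℕ} {ι : Type*} (s : Finset ι) (A : ι → V →ₗ[ℝ] V) (φ : Ten V p) :
    DA (∑ i ∈ s, A i) φ = ∑ i ∈ s, DA (A i) φ := by
  exact map_sum (DAlin p φ) A s

lemma DA_neg {p : ℕ} (A : V →ₗ[ℝ] V) (φ : Ten V p) : DA (-A) φ = -DA A φ := by
  exact map_neg (DAlin p φ) A

lemma DA_sub {p : ℕ} (A B : V →ₗ[ℝ] V) (φ : Ten V p) : DA (A - B) φ = DA A φ - DA B φ := by
  exact map_sub (DAlin p φ) A B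

/-- The rank one endomorphism `v ↦ ⟪y, v⟫ x`. -/
noncomputable def rk (x y : V) : V →ₗ[ℝ] V where
  toFun v := (inner ℝ y v : ℝ) • x
  map_add' v w := by rw [inner_add_right, add_smul]
  map_smul' c v := by rw [inner_smul_right, RingHom.id_apply, mul_smul]

lemma rk_apply (x y v : V) : rk x y v = (inner ℝ y v : ℝ) • x := rfl

section
variable {n : ℕ} (e : OrthonormalBasis (Fin n) ℝ V)

lemma expand (v : V) : v = ∑ j, (inner ℝ (e j) v : ℝ) • e j := (e.sum_repr' v).symm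

/-- The curvature operator on tensors. -/
noncomputable def Kop {p : ℕ} (R : V →ₗ[ℝ] V →ₗ[ℝ] V →ₗ[ℝ] V) : Ten V p →ₗ[ℝ] Ten V p :=
  -∑ i : Fin n, ∑ j : Fin n, (DA (rk (e i) (e j))) ∘ₗ (DA (R (e i) (e j)))

lemma Kop_apply {p : ℕ} (R : V →ₗ[ℝ] V →ₗ[ℝ] V →ₗ[ℝ] V) (φ : Ten V p) :
    Kop e R φ = -∑ i : Fin n, ∑ j : Fin n, DA (rk (e i) (e j)) (DA (R (e i) (e j)) φ) := by
  simp [Kop, LinearMap.sum_apply]

lemma bochnerTerm_eq {p : ℕ} (R : V →ₗ[ℝ] V →ₗ[ℝ] V →ₗ[ℝ] V) (φ : Ten V p) (X : Fin p → V) :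
    bochnerTerm e R φ X = Kop e R φ X := by
  have h1 : ∀ (i : Fin n) (v : V), (R (e i)) v = ∑ j, (inner ℝ (e j) v : ℝ) • R (e i) (e j) := by
    intro i v
    conv_lhs => rw [expand e v]
    rw [map_sum]
    simp only [map_smul]
  unfold bochnerTerm
  have h2 : ∀ a i, derivAct ((R (e i)) (X a)) (⇑φ) (Function.update X a (e i)) =
      -∑ j, (DA (R (e i) (e j)) φ) (Function.update X a ((inner ℝ (e j) (X a) : ℝ) • e i)) := by
    intro a i
    rw [derivAct_eq, h1, DA_sum, _root_.sum_apply]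
    congr 1
    apply sum_congr rfl
    intro j _
    rw [DA_smul, _root_.smul_apply, MultilinearMap.map_update_smul]
  simp only [h2]
  rw [Kop_apply, _root_.neg_apply, _root_.sum_apply]
  simp only [_root_.sum_apply, DA_apply (rk _ _), rk_apply, sum_neg_distrib]
  congr 1
  rw [sum_comm]
  apply sum_congr rfl
  intro i _
  rw [sum_comm]

end

end Pool.Agent.Work.MP_b296c2_gt
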