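import Mathlib
import Pool.Agent.Work.MP_b296c2_gt.Ops

namespace Pool.Agent.Work.MP_b296c2_gt

open Finset

variable {V : Type*} [NormedAddCommGroup V] [InnerProductSpace ℝ V]

/-! ### symmetric tensors -/

def symSub (V : Type*) [NormedAddCommGroup V] [InnerProductSpace ℝ V] (p : ℕ) :
    Submodule ℝ (Ten V p) where
  carrier := {φ | IsSymmTensor φ}
  add_mem' {φ ψ} h1 h2 := by
    intro σ X
    simp only [_root_.add_apply]
    rw [h1 σ X, h2 σ X]
  zero_mem' := by
    intro σ X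
    simp
  smul_mem' c φ h := by
    intro σ X
    simp only [_root_.smul_apply]
    rw [h σ X]

lemma mem_symSub {p : ℕ} {φ : Ten V p} : φ ∈ symSub V p ↔ IsSymmTensor φ := Iff.rfl

omit [NormedAddCommGroup V] [InnerProductSpace ℝ V] in
lemma update_perm {p : ℕ} (X : Fin p → V) (σ : Equiv.Perm (Fin p)) (b : Fin p) (v : V) :
    Function.update (fun a => X (σ a)) b v = fun a => Function.update X (σ b) v (σ a) := by
  funext a
  by_cases h : a = b
  · subst h; simp
  · rw [Function.update_of_ne h, Function.update_of_ne (fun hh => h (σ.injective hh))]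

lemma DA_sym {p : ℕ} (A : V →ₗ[ℝ] V) {φ : Ten V p} (h : IsSymmTensor φ) :
    IsSymmTensor (DA A φ) := by
  intro σ X
  rw [DA_apply, DA_apply]
  rw [← Equiv.sum_comp σ (fun b => φ (Function.update X b (A (X b))))]
  apply sum_congr rfl
  intro b _
  rw [update_perm, h σ]

section
variable {n : ℕ} (e : OrthonormalBasis (Fin n) ℝ V)

lemma Kop_sym {p : ℕ} (R : V →ₗ[ℝ] V →ₗ[ℝ] V →ₗ[ℝ] V) {φ : Ten V p} (h : IsSymmTensor φ) :
    IsSymmTensor (Kop e R φ) := by
  rw [← mem_symSub, Kop_apply]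
  apply Submodule.neg_mem
  apply Submodule.sum_mem
  intro i _
  apply Submodule.sum_mem
  intro j _
  exact DA_sym _ (DA_sym _ h)

/-! ### the inner product and adjoints -/

noncomputable def tin {p : ℕ} (φ ψ : Ten V p) : ℝ := tensorInner e φ ψ

lemma tin_apply {p : ℕ} (φ ψ : Ten V p) :
    tin e φ ψ = ∑ J : Fin p → Fin n, φ (fun a => e (J a)) * ψ (fun a => e (J a)) := rfl

lemma tin_comm {p : ℕ} (φ ψ : Ten V p) : tin e φ ψ = tin e ψ φ := by
  rw [tin_apply, tin_apply]
  exact sum_congr rfl (fun _ _ => mul_comm _ _)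

lemma tin_add_left {p : ℕ} (φ ψ χ : Ten V p) : tin e (φ + ψ) χ = tin e φ χ + tin e ψ χ := by
  simp only [tin_apply, _root_.add_apply, add_mul, sum_add_distrib]

lemma tin_smul_left {p : ℕ} (c : ℝ) (φ ψ : Ten V p) : tin e (c • φ) ψ = c * tin e φ ψ := by
  simp only [tin_apply, _root_.smul_apply, smul_eq_mul, mul_sum, mul_assoc]

lemma tin_self_nonneg {p : ℕ} (φ : Ten V p) : 0 ≤ tin e φ φ := by
  rw [tin_apply]
  exact sum_nonneg (fun _ _ => mul_self_nonneg _)

lemma tin_definite {p : ℕ} (φ : Ten V p) (h : tin e φ φ = 0) : φ = 0 := by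
  rw [tin_apply, sum_eq_zero_iff_of_nonneg (fun _ _ => mul_self_nonneg _)] at h
  apply Module.Basis.ext_multilinear (fun _ => e.toBasis)
  intro J
  have := h J (mem_univ _)
  simpa using this

/-- `tin` as linear map in the left variable. -/
noncomputable def tinL {p : ℕ} (ψ : Ten V p) : Ten V p →ₗ[ℝ] ℝ where
  toFun φ := tin e φ ψ
  map_add' φ φ' := tin_add_left e φ φ' ψ
  map_smul' c φ := tin_smul_left e c φ ψ

lemma tin_sum_left {p : ℕ} {ι : Type*} (s : Finset ι) (φ : ι → Ten V p) (ψ : Ten V p) :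
    tin e (∑ i ∈ s, φ i) ψ = ∑ i ∈ s, tin e (φ i) ψ := map_sum (tinL e ψ) φ s

lemma tin_neg_left {p : ℕ} (φ ψ : Ten V p) : tin e (-φ) ψ = -tin e φ ψ :=
  map_neg (tinL e ψ) φ

lemma tin_sum_right {p : ℕ} {ι : Type*} (s : Finset ι) (φ : ι → Ten V p) (ψ : Ten V p) :
    tin e ψ (∑ i ∈ s, φ i) = ∑ i ∈ s, tin e ψ (φ i) := by
  rw [tin_comm, tin_sum_left]
  exact sum_congr rfl (fun _ _ => tin_comm e _ _)

lemma tin_neg_right {p : ℕ} (φ ψ : Ten V p) : tin e φ (-ψ) = -tin e φ ψ := by
  rw [tin_comm, tin_neg_left, tin_comm]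

/-- A pair of adjoint endomorphisms acts by adjoint operators. -/
lemma tin_DA {p : ℕ} (A B : V →ₗ[ℝ] V) (hAB : ∀ v w, (inner ℝ (A v) w : ℝ) = inner ℝ v (B w))
    (φ ψ : Ten V p) : tin e (DA A φ) ψ = tin e φ (DA B ψ) := by
  have hA : ∀ (χ : Ten V p) (A : V →ₗ[ℝ] V) (J : Fin p → Fin n),
      DA A χ (fun a => e (J a)) =
      ∑ b, ∑ k, (inner ℝ (e k) (A (e (J b))) : ℝ) * χ (fun a => e (Function.update J b k a)) := by
    intro χ A J
    rw [DA_apply]
    apply sum_congr rfl
    intro b _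
    have h1 : Function.update (fun a => e (J a)) b (A (e (J b))) =
        Function.update (fun a => e (J a)) b (∑ k, (inner ℝ (e k) (A (e (J b))) : ℝ) • e k) := by
      rw [← expand]
    rw [h1, MultilinearMap.map_update_sum]
    apply sum_congr rfl
    intro k _
    rw [MultilinearMap.map_update_smul, smul_eq_mul]
    congr 2
    funext a
    by_cases h : a = b
    · subst h; simp
    · simp [Function.update_of_ne h]
  rw [tin_apply, tin_apply]
  simp only [hA, sum_mul, mul_sum]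
  rw [sum_comm, sum_comm (s := (univ : Finset (Fin p → Fin n)))]
  apply sum_congr rfl
  intro b _
  rw [← sum_product', ← sum_product']
  apply sum_nbij' (fun q => (Function.update q.1 b q.2, q.1 b))
    (fun q => (Function.update q.1 b q.2, q.1 b))
  · simp
  · simp
  · rintro ⟨J, k⟩ _; simp
  · rintro ⟨J, k⟩ _; simp
  · rintro ⟨J, k⟩ _
    have : (inner ℝ (e k) (A (e (J b))) : ℝ) = inner ℝ (e (J b)) (B (e k)) := by
      rw [real_inner_comm, hAB]
    simp [this]
    ring

end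

end Pool.Agent.Work.MP_b296c2_gt
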