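import Mathlib
import Pool.Agent.Work.MP_b296c2_gt.Adj

namespace Pool.Agent.Work.MP_b296c2_gt

open Finset

variable {V : Type*} [NormedAddCommGroup V] [InnerProductSpace ℝ V]

lemma pair_symm {R : V →ₗ[ℝ] V →ₗ[ℝ] V →ₗ[ℝ] V} (hR : IsCurvatureTensor R) (x y z w : V) :
    (inner ℝ (R x y z) w : ℝ) = inner ℝ (R z w x) y := by
  have B : ∀ a b c d : V, (inner ℝ (R a b c) d : ℝ) + inner ℝ (R b c a) d +
      inner ℝ (R c a b) d = 0 := by
    intro a b c d
    have := congrArg (fun v => (inner ℝ v d : ℝ)) (hR.bianchi a b c)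
    simpa [inner_add_left] using this
  have A : ∀ a b c d : V, (inner ℝ (R a b c) d : ℝ) = -inner ℝ (R b a c) d := by
    intro a b c d
    rw [hR.anti a b c, inner_neg_left]
  have S : ∀ a b c d : V, (inner ℝ (R a b c) d : ℝ) = -inner ℝ (R a b d) c := by
    intro a b c d
    rw [hR.skew a b c d, real_inner_comm]
  have b1 := B x y z w
  have b2 := B y z w x
  have b3 := B z w x y
  have b4 := B w x y z
  have := S x y w z
  have := S y z w x
  have := S z w x y
  have := S w x y z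
  have := S x z w y
  have := S y w x z
  have := S z x w y
  have := S x w y z
  have := A z x y w
  have := A w y z x
  have := A x z w y
  have := A y w x z
  have := A x y w z
  have := A y z w x
  have := A z w x y
  have := A w x y z
  have := S y z x w
  have := S z x y w
  have := S w y z x
  have := S x w z y
  linarith

section
variable {n : ℕ} (e : OrthonormalBasis (Fin n) ℝ V)

lemma Kop_skew {p : ℕ} {R : V →ₗ[ℝ] V →ₗ[ℝ] V →ₗ[ℝ] V} (hR : IsCurvatureTensor R) (φ : Ten V p) :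
    Kop e R φ = -((1 / 2 : ℝ) • ∑ i : Fin n, ∑ j : Fin n,
      DA (rk (e i) (e j) - rk (e j) (e i)) (DA (R (e i) (e j)) φ)) := by
  rw [Kop_apply]
  congr 1
  have h1 : ∀ i j, DA (R (e i) (e j)) φ = -DA (R (e j) (e i)) φ := by
    intro i j
    have : R (e i) (e j) = -R (e j) (e i) := by
      ext z; simpa using hR.anti (e i) (e j) z
    rw [this, DA_neg]
  have h2 : ∑ i : Fin n, ∑ j : Fin n, DA (rk (e j) (e i)) (DA (R (e i) (e j)) φ) =
      -∑ i : Fin n, ∑ j : Fin n, DA (rk (e i) (e j)) (DA (R (e i) (e j)) φ) := by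
    rw [sum_comm, ← sum_neg_distrib]
    apply sum_congr rfl
    intro i _
    rw [← sum_neg_distrib]
    apply sum_congr rfl
    intro j _
    rw [h1 j i, map_neg]
  simp only [DA_sub, sum_sub_distrib]
  rw [h2, sub_neg_eq_add, ← two_smul ℝ, smul_smul]
  norm_num

lemma rk_sub_skew (x y : V) (v w : V) :
    (inner ℝ ((rk x y - rk y x) v) w : ℝ) = inner ℝ v ((-(rk x y - rk y x)) w) := by
  simp only [LinearMap.sub_apply, rk_apply, LinearMap.neg_apply, inner_sub_left, inner_neg_right,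
    inner_sub_right, inner_smul_left, inner_smul_right]
  simp only [conj_trivial]
  rw [real_inner_comm x v, real_inner_comm y v]
  ring

lemma R_skew {R : V →ₗ[ℝ] V →ₗ[ℝ] V →ₗ[ℝ] V} (hR : IsCurvatureTensor R) (x y v w : V) :
    (inner ℝ (R x y v) w : ℝ) = inner ℝ v ((-(R x y)) w) := by
  rw [hR.skew, LinearMap.neg_apply, inner_neg_right]

lemma R_expand (R : V →ₗ[ℝ] V →ₗ[ℝ] V →ₗ[ℝ] V) (x y : V) :
    R x y = ∑ k, ∑ l, (inner ℝ (R x y (e l)) (e k) : ℝ) • rk (e k) (e l) := by
  apply e.toBasis.ext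
  intro m
  rw [OrthonormalBasis.coe_toBasis]
  simp only [LinearMap.sum_apply, LinearMap.smul_apply, rk_apply, e.inner_eq_ite, ite_smul,
    one_smul, zero_smul, smul_ite, smul_zero, sum_ite_eq', mem_univ, if_true]
  conv_lhs => rw [expand e (R x y (e m))]
  exact sum_congr rfl (fun k _ => by rw [real_inner_comm])

lemma Kop_self_adjoint {p : ℕ} {R : V →ₗ[ℝ] V →ₗ[ℝ] V →ₗ[ℝ] V} (hR : IsCurvatureTensor R)
    (φ ψ : Ten V p) : tin e (Kop e R φ) ψ = tin e φ (Kop e R ψ) := by
  -- left side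
  have hL : tin e (Kop e R φ) ψ = -((1 / 2 : ℝ) * ∑ i : Fin n, ∑ j : Fin n,
      tin e φ (DA (R (e i) (e j)) (DA (rk (e i) (e j) - rk (e j) (e i)) ψ))) := by
    rw [Kop_skew e hR, tin_neg_left, tin_smul_left, tin_sum_left]
    congr 2
    apply sum_congr rfl
    intro i _
    rw [tin_sum_left]
    apply sum_congr rfl
    intro j _
    rw [tin_DA e _ _ (rk_sub_skew (e i) (e j)), tin_DA e _ _ (R_skew hR (e i) (e j)),
      DA_neg, DA_neg, map_neg, neg_neg]
  have hS : ∑ i : Fin n, ∑ j : Fin n,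
      (DA (R (e i) (e j)) (DA (rk (e i) (e j) - rk (e j) (e i)) ψ)) =
      (2 : ℝ) • ∑ i : Fin n, ∑ j : Fin n, (DA (R (e i) (e j)) (DA (rk (e i) (e j)) ψ)) := by
    have h2 : ∑ i : Fin n, ∑ j : Fin n, DA (R (e i) (e j)) (DA (rk (e j) (e i)) ψ) =
        -∑ i : Fin n, ∑ j : Fin n, DA (R (e i) (e j)) (DA (rk (e i) (e j)) ψ) := by
      rw [sum_comm, ← sum_neg_distrib]
      apply sum_congr rfl
      intro i _
      rw [← sum_neg_distrib]
      apply sum_congr rfl
      intro j _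
      have : R (e j) (e i) = -R (e i) (e j) := by
        ext z; simpa using hR.anti (e j) (e i) z
      rw [this, DA_neg]
    simp only [DA_sub, map_sub, sum_sub_distrib]
    rw [h2, sub_neg_eq_add, ← two_smul ℝ]
  have hT : ∑ i : Fin n, ∑ j : Fin n, (DA (R (e i) (e j)) (DA (rk (e i) (e j)) ψ)) =
      ∑ i : Fin n, ∑ j : Fin n, (DA (rk (e i) (e j)) (DA (R (e i) (e j)) ψ)) := by
    have l1 : ∀ i j, DA (R (e i) (e j)) (DA (rk (e i) (e j)) ψ) =
        ∑ k, ∑ l, (inner ℝ (R (e i) (e j) (e l)) (e k) : ℝ) •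
          DA (rk (e k) (e l)) (DA (rk (e i) (e j)) ψ) := by
      intro i j
      conv_lhs => rw [R_expand e R (e i) (e j)]
      rw [DA_sum]
      apply sum_congr rfl
      intro k _
      rw [DA_sum]
      apply sum_congr rfl
      intro l _
      rw [DA_smul]
    have l2 : ∀ k l, DA (rk (e k) (e l)) (DA (R (e k) (e l)) ψ) =
        ∑ i, ∑ j, (inner ℝ (R (e k) (e l) (e j)) (e i) : ℝ) •
          DA (rk (e k) (e l)) (DA (rk (e i) (e j)) ψ) := by
      intro k l
      conv_lhs => rw [R_expand e R (e k) (e l)]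
      rw [DA_sum, map_sum]
      apply sum_congr rfl
      intro i _
      rw [DA_sum, map_sum]
      apply sum_congr rfl
      intro j _
      rw [DA_smul, map_smul]
    simp only [l1, l2]
    have key : ∀ i j k l, (inner ℝ (R (e i) (e j) (e l)) (e k) : ℝ) =
        inner ℝ (R (e k) (e l) (e j)) (e i) := by
      intro i j k l
      rw [pair_symm hR, hR.anti, inner_neg_left, hR.skew, neg_neg, real_inner_comm]
    calc ∑ i, ∑ j, ∑ k, ∑ l, (inner ℝ (R (e i) (e j) (e l)) (e k) : ℝ) •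
          DA (rk (e k) (e l)) (DA (rk (e i) (e j)) ψ)
        = ∑ i, ∑ j, ∑ k, ∑ l, (inner ℝ (R (e k) (e l) (e j)) (e i) : ℝ) •
          DA (rk (e k) (e l)) (DA (rk (e i) (e j)) ψ) := by
          exact sum_congr rfl (fun i _ => sum_congr rfl (fun j _ => sum_congr rfl
            (fun k _ => sum_congr rfl (fun l _ => by rw [key i j k l]))))
      _ = ∑ i, ∑ k, ∑ j, ∑ l, (inner ℝ (R (e k) (e l) (e j)) (e i) : ℝ) •
          DA (rk (e k) (e l)) (DA (rk (e i) (e j)) ψ) := by
          exact sum_congr rfl (fun i _ => sum_comm)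
      _ = ∑ k, ∑ i, ∑ j, ∑ l, (inner ℝ (R (e k) (e l) (e j)) (e i) : ℝ) •
          DA (rk (e k) (e l)) (DA (rk (e i) (e j)) ψ) := sum_comm
      _ = ∑ k, ∑ i, ∑ l, ∑ j, (inner ℝ (R (e k) (e l) (e j)) (e i) : ℝ) •
          DA (rk (e k) (e l)) (DA (rk (e i) (e j)) ψ) := by
          exact sum_congr rfl (fun k _ => sum_congr rfl (fun i _ => sum_comm))
      _ = ∑ k, ∑ l, ∑ i, ∑ j, (inner ℝ (R (e k) (e l) (e j)) (e i) : ℝ) •
          DA (rk (e k) (e l)) (DA (rk (e i) (e j)) ψ) := by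
          exact sum_congr rfl (fun k _ => sum_comm)
  rw [hL]
  have : ∑ i : Fin n, ∑ j : Fin n,
      tin e φ (DA (R (e i) (e j)) (DA (rk (e i) (e j) - rk (e j) (e i)) ψ)) =
      tin e φ (∑ i : Fin n, ∑ j : Fin n,
        (DA (R (e i) (e j)) (DA (rk (e i) (e j) - rk (e j) (e i)) ψ))) := by
    rw [tin_sum_right]
    exact sum_congr rfl (fun i _ => (tin_sum_right e _ _ _).symm)
  rw [this, hS, hT, Kop_apply, tin_neg_right, tin_comm e φ ((2 : ℝ) • _), tin_smul_left,
    tin_comm e _ φ]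
  ring

/-! ### the trace -/

/-- contraction of the first two arguments -/
noncomputable def tr {p : ℕ} : Ten V (p + 2) →ₗ[ℝ] Ten V p where
  toFun φ := ∑ i : Fin n, (φ.curryLeft (e i)).curryLeft (e i)
  map_add' φ ψ := by
    rw [← sum_add_distrib]
    apply sum_congr rfl
    intro i _
    ext X
    rfl
  map_smul' c φ := by
    rw [RingHom.id_apply, smul_sum]
    apply sum_congr rfl
    intro i _
    ext X
    rfl

lemma tr_apply {p : ℕ} (φ : Ten V (p + 2)) (X : Fin p → V) :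
    tr e φ X = ∑ i : Fin n, φ (Fin.cons (e i) (Fin.cons (e i) X : Fin (p + 1) → V)) := by
  simp only [tr, LinearMap.coe_mk, AddHom.coe_mk, _root_.sum_apply,
    MultilinearMap.curryLeft_apply]

lemma sym_swap01 {p : ℕ} {φ : Ten V (p + 2)} (h : IsSymmTensor φ) (v w : V) (X : Fin p → V) :
    φ (Fin.cons v (Fin.cons w X : Fin (p + 1) → V)) =
      φ (Fin.cons w (Fin.cons v X : Fin (p + 1) → V)) := by
  rw [← h (Equiv.swap 0 1)]
  congr 1
  funext a
  refine Fin.cases ?_ (fun a => ?_) a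
  · rw [Equiv.swap_apply_left]; rfl
  · refine Fin.cases ?_ (fun a => ?_) a
    · have : (Fin.succ 0 : Fin (p + 2)) = 1 := rfl
      rw [this, Equiv.swap_apply_right]; rfl
    · rw [Equiv.swap_apply_of_ne_of_ne]
      · rfl
      · exact Fin.succ_ne_zero _
      · intro hh
        have : (Fin.succ (Fin.succ a) : Fin (p + 2)) = Fin.succ 0 := hh
        exact Fin.succ_ne_zero _ (Fin.succ_injective _ this)

lemma tr_DA {p : ℕ} (A : V →ₗ[ℝ] V) (hA : ∀ v w, (inner ℝ (A v) w : ℝ) = -inner ℝ v (A w))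
    {φ : Ten V (p + 2)} (h : IsSymmTensor φ) : tr e (DA A φ) = DA A (tr e φ) := by
  ext X
  rw [tr_apply, DA_apply]
  simp only [DA_apply, tr_apply]
  rw [sum_comm (γ := Fin p)]
  have hzero : ∑ i : Fin n, φ (Fin.cons (A (e i)) (Fin.cons (e i) X : Fin (p + 1) → V)) = 0 := by
    have h1 : ∀ i, φ (Fin.cons (A (e i)) (Fin.cons (e i) X : Fin (p + 1) → V)) =
        ∑ k, (inner ℝ (e k) (A (e i)) : ℝ) *
          φ (Fin.cons (e k) (Fin.cons (e i) X : Fin (p + 1) → V)) := by
      intro i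
      have h2 : (Fin.cons (A (e i)) (Fin.cons (e i) X : Fin (p + 1) → V) : Fin (p + 2) → V) =
          Function.update (Fin.cons (0 : V) (Fin.cons (e i) X : Fin (p + 1) → V)) 0
            (∑ k, (inner ℝ (e k) (A (e i)) : ℝ) • e k) := by
        rw [← expand, Fin.update_cons_zero]
      rw [h2, MultilinearMap.map_update_sum]
      apply sum_congr rfl
      intro k _
      rw [MultilinearMap.map_update_smul, Fin.update_cons_zero, smul_eq_mul]
    simp only [h1]
    have h3 : ∑ i, ∑ k, (inner ℝ (e k) (A (e i)) : ℝ) *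
          φ (Fin.cons (e k) (Fin.cons (e i) X : Fin (p + 1) → V)) =
        -∑ i, ∑ k, (inner ℝ (e k) (A (e i)) : ℝ) *
          φ (Fin.cons (e k) (Fin.cons (e i) X : Fin (p + 1) → V)) := by
      conv_lhs => rw [sum_comm]
      rw [← sum_neg_distrib]
      apply sum_congr rfl
      intro i _
      rw [← sum_neg_distrib]
      apply sum_congr rfl
      intro k _
      rw [sym_swap01 h, ← real_inner_comm, hA, ← neg_mul]
    linarith
  have hzero' : ∑ i : Fin n, φ (Fin.cons (e i) (Fin.cons (A (e i)) X : Fin (p + 1) → V)) = 0 := by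
    rw [← hzero]
    exact sum_congr rfl (fun i _ => sym_swap01 h _ _ _)
  simp only [Fin.sum_univ_succ (n := p + 1), Fin.sum_univ_succ (n := p), sum_add_distrib]
  have e0 : ∀ i, (Function.update (Fin.cons (e i) (Fin.cons (e i) X : Fin (p + 1) → V)) 0
      (A ((Fin.cons (e i) (Fin.cons (e i) X : Fin (p + 1) → V) : Fin (p + 2) → V) 0))
        : Fin (p + 2) → V) =
      Fin.cons (A (e i)) (Fin.cons (e i) X : Fin (p + 1) → V) := by
    intro i
    rw [Fin.update_cons_zero]; rfl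
  have e1 : ∀ i, (Function.update (Fin.cons (e i) (Fin.cons (e i) X : Fin (p + 1) → V))
      (Fin.succ 0)
      (A ((Fin.cons (e i) (Fin.cons (e i) X : Fin (p + 1) → V) : Fin (p + 2) → V) (Fin.succ 0)))
        : Fin (p + 2) → V) =
      Fin.cons (e i) (Fin.cons (A (e i)) X : Fin (p + 1) → V) := by
    intro i
    rw [← Fin.cons_update, Fin.update_cons_zero]; rfl
  have e2 : ∀ i (b : Fin p), (Function.update (Fin.cons (e i) (Fin.cons (e i) X : Fin (p + 1) → V))
      (Fin.succ (Fin.succ b))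
      (A ((Fin.cons (e i) (Fin.cons (e i) X : Fin (p + 1) → V) : Fin (p + 2) → V)
        (Fin.succ (Fin.succ b))))
        : Fin (p + 2) → V) =
      Fin.cons (e i) (Fin.cons (e i) (Function.update X b (A (X b))) : Fin (p + 1) → V) := by
    intro i b
    rw [← Fin.cons_update, ← Fin.cons_update]; rfl
  simp only [e0, e1, e2, hzero, hzero', zero_add]

lemma tr_sym {p : ℕ} {φ : Ten V (p + 2)} (h : IsSymmTensor φ) : IsSymmTensor (tr e φ) := by
  intro σ X
  rw [tr_apply, tr_apply]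
  apply sum_congr rfl
  intro i _
  -- extend σ to a permutation of Fin (p+2)
  have h1 := h (Equiv.Perm.decomposeFin.symm (0, Equiv.Perm.decomposeFin.symm (0, σ)))
    (Fin.cons (e i) (Fin.cons (e i) X : Fin (p + 1) → V))
  rw [← h1]
  congr 1
  funext a
  refine Fin.cases ?_ (fun a => ?_) a
  · simp
  · refine Fin.cases ?_ (fun a => ?_) a
    · simp
    · simp

lemma tr_Kop {p : ℕ} {R : V →ₗ[ℝ] V →ₗ[ℝ] V →ₗ[ℝ] V} (hR : IsCurvatureTensor R)
    {φ : Ten V (p + 2)} (h : IsSymmTensor φ) : tr e (Kop e R φ) = Kop e R (tr e φ) := by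
  rw [Kop_skew e hR, Kop_skew e hR, map_neg, map_smul, map_sum]
  congr 2
  apply sum_congr rfl
  intro i _
  rw [map_sum]
  apply sum_congr rfl
  intro j _
  rw [tr_DA e _ _ (DA_sym _ h), tr_DA e _ _ h]
  · intro v w; rw [hR.skew]
  · intro v w
    rw [rk_sub_skew, LinearMap.neg_apply, inner_neg_right]

end

end Pool.Agent.Work.MP_b296c2_gt
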