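import Mathlib
import Pool.Agent.Work.MP_b296c2_gt.Trace

namespace Pool.Agent.Work.MP_b296c2_gt

open Finset

variable {V : Type*} [NormedAddCommGroup V] [InnerProductSpace ℝ V]

lemma sum_basis_indep {n : ℕ} (B : V →ₗ[ℝ] V →ₗ[ℝ] ℝ) (e e' : OrthonormalBasis (Fin n) ℝ V) :
    ∑ i, B (e i) (e i) = ∑ i, B (e' i) (e' i) := by
  have h1 : ∀ i, B (e i) (e i) =
      ∑ j, ∑ k, (inner ℝ (e' j) (e i) * inner ℝ (e i) (e' k) : ℝ) * B (e' j) (e' k) := by
    intro i
    have h2 : B (e i) = ∑ j, (inner ℝ (e' j) (e i) : ℝ) • B (e' j) := by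
      conv_lhs => rw [expand e' (e i)]
      rw [map_sum]
      exact sum_congr rfl (fun j _ => map_smul _ _ _)
    rw [h2, LinearMap.sum_apply]
    apply sum_congr rfl
    intro j _
    rw [LinearMap.smul_apply, smul_eq_mul]
    conv_lhs => rw [expand e' (e i)]
    rw [map_sum, mul_sum]
    apply sum_congr rfl
    intro k _
    rw [map_smul, smul_eq_mul, ← expand e' (e i), real_inner_comm (e' k) (e i)]
    ring
  simp only [h1]
  rw [sum_comm]
  apply sum_congr rfl
  intro j _
  rw [sum_comm]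
  simp only [← sum_mul, OrthonormalBasis.sum_inner_mul_inner]
  simp only [e'.inner_eq_ite]
  simp

lemma exists_frame {m : ℕ} (e0 : OrthonormalBasis (Fin (m + 1)) ℝ V) (x : V) (hx : ‖x‖ = 1)
    (J : V →ₗ[ℝ] V) (hJ : ∀ v w, (inner ℝ (J v) w : ℝ) = inner ℝ v (J w)) (hJx : J x = 0) :
    ∃ e : OrthonormalBasis (Fin (m + 1)) ℝ V, e 0 = x ∧ ∀ i, ∃ c : ℝ, J (e i) = c • e i := by
  have hfr : Module.finrank ℝ V = m + 1 := by
    rw [Module.finrank_eq_card_basis e0.toBasis]; simp
  have : Fact (Module.finrank ℝ V = m + 1) := ⟨hfr⟩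
  have : FiniteDimensional ℝ V := .of_fact_finrank_eq_succ m
  have hx0 : x ≠ 0 := by
    intro h; rw [h, norm_zero] at hx; norm_num at hx
  let W : Submodule ℝ V := (ℝ ∙ x)ᗮ
  have hW : Module.finrank ℝ W = m := Submodule.finrank_orthogonal_span_singleton hx0
  have hsym : J.IsSymmetric := fun v w => hJ v w
  have hinv : ∀ v ∈ W, J v ∈ W := by
    intro v hv
    rw [Submodule.mem_orthogonal_singleton_iff_inner_right] at hv ⊢
    rw [← hJ, hJx, inner_zero_left]
  have hsr := hsym.restrict_invariant hinv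
  let b := hsr.eigenvectorBasis hW
  let v : Fin (m + 1) → V := Fin.cons x (fun i => (b i : V))
  have hvo : Orthonormal ℝ v := by
    rw [orthonormal_iff_ite]
    intro i j
    refine Fin.cases ?_ (fun i => ?_) i
    · refine Fin.cases ?_ (fun j => ?_) j
      · simp [v, hx]
      · have : (b j : V) ∈ W := (b j).2
        rw [Submodule.mem_orthogonal_singleton_iff_inner_right] at this
        simp only [v, Fin.cons_zero, Fin.cons_succ, this]
        rw [if_neg (Fin.succ_ne_zero j).symm]
    · refine Fin.cases ?_ (fun j => ?_) j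
      · have : (b i : V) ∈ W := (b i).2
        rw [Submodule.mem_orthogonal_singleton_iff_inner_right] at this
        simp only [v, Fin.cons_zero, Fin.cons_succ]
        rw [real_inner_comm, this, if_neg (Fin.succ_ne_zero i)]
      · have := b.inner_eq_ite i j
        simp only [v, Fin.cons_succ]
        rw [← Submodule.coe_inner, this]
        simp
  obtain ⟨e, he⟩ := Orthonormal.exists_orthonormalBasis_extension_of_card_eq (𝕜 := ℝ)
    (ι := Fin (m + 1)) (E := V) (v := v) (s := Set.univ) (by simp [hfr])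
    (by
      refine hvo.comp _ ?_
      exact Subtype.val_injective)
  refine ⟨e, by rw [he 0 (Set.mem_univ _)]; rfl, ?_⟩
  intro i
  rw [he i (Set.mem_univ _)]
  refine Fin.cases ?_ (fun i => ?_) i
  · exact ⟨0, by simp [v, hJx]⟩
  · refine ⟨hsr.eigenvalues hW i, ?_⟩
    have h2 := congrArg (fun w : W => (w : V)) (hsr.apply_eigenvectorBasis hW i)
    exact h2

end Pool.Agent.Work.MP_b296c2_gt
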