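import Mathlib
import Pool.Agent.Work.MP_b296c2_gt.Frame

namespace Pool.Agent.Work.MP_b296c2_gt

open Finset Polynomial

variable {V : Type*} [NormedAddCommGroup V] [InnerProductSpace ℝ V]

section
variable {n : ℕ} (e : OrthonormalBasis (Fin n) ℝ V)
include e

lemma ten_expand {p : ℕ} (φ : Ten V p) (X : Fin p → V) :
    φ X = ∑ J : Fin p → Fin n, (∏ a, (inner ℝ (e (J a)) (X a) : ℝ)) * φ (fun a => e (J a)) := by
  conv_lhs => rw [show X = fun a => ∑ j, (inner ℝ (e j) (X a) : ℝ) • e j from
    funext (fun a => expand e (X a))]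
  rw [MultilinearMap.map_sum]
  apply sum_congr rfl
  intro J _
  rw [MultilinearMap.map_smul_univ, smul_eq_mul]

lemma ten_continuous {p : ℕ} (φ : Ten V p) : Continuous (fun X : Fin p → V => φ X) := by
  have : (fun X : Fin p → V => φ X) = fun X => ∑ J : Fin p → Fin n,
      (∏ a, (inner ℝ (e (J a)) (X a) : ℝ)) * φ (fun a => e (J a)) :=
    funext (fun X => ten_expand e φ X)
  rw [this]
  apply continuous_finsetSum
  intro J _
  apply Continuous.mul _ continuous_const
  apply continuous_finsetProd
  intro a _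
  exact Continuous.inner continuous_const (continuous_apply a)

/-- the continuous multilinear map underlying a tensor -/
noncomputable def toCont {p : ℕ} (φ : Ten V p) :
    ContinuousMultilinearMap ℝ (fun _ : Fin p => V) ℝ :=
  { φ with cont := ten_continuous e φ }

lemma toCont_apply {p : ℕ} (φ : Ten V p) (X : Fin p → V) : toCont e φ X = φ X := rfl

lemma diag_continuous {p : ℕ} (φ : Ten V p) : Continuous (fun x : V => φ (fun _ => x)) :=
  (ten_continuous e φ).comp (continuous_pi (fun _ => continuous_id))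

lemma hasDerivAt_diag {p : ℕ} (φ : Ten V p) (γ : ℝ → V) (γ' : V) (t : ℝ)
    (h : HasDerivAt γ γ' t) :
    HasDerivAt (fun s => φ (fun _ => γ s))
      (∑ a, φ (Function.update (fun _ => γ t) a γ')) t := by
  have h1 : HasDerivAt (fun s => (fun _ : Fin p => γ s)) (fun _ => γ') t := by
    rw [hasDerivAt_pi]
    exact fun _ => h
  have h2 := (toCont e φ).hasFDerivAt (x := fun _ : Fin p => γ t)
  have h3 := h2.comp_hasDerivAt t h1
  simpa [ContinuousMultilinearMap.linearDeriv_apply, toCont_apply, Function.comp_def] using h3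

/-- A symmetric tensor vanishing on the diagonal is zero. -/
lemma sym_zero_of_diag {p : ℕ} {φ : Ten V p} (h : IsSymmTensor φ)
    (h0 : ∀ x : V, φ (fun _ => x) = 0) : φ = 0 := by
  ext X
  have h1 := (toCont e φ).iteratedFDeriv_comp_diagonal (0 : V) X
  have h2 : (fun x : V => (toCont e φ) (fun _ : Fin p => x)) = fun _ => 0 := by
    funext x; exact h0 x
  rw [h2] at h1
  have h3 : ∀ σ : Equiv.Perm (Fin p), (toCont e φ) (fun i => X (σ i)) = φ X := fun σ => h σ X
  simp only [h3, sum_const, card_univ, nsmul_eq_mul] at h1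
  have h4 : iteratedFDeriv ℝ p (fun _ : V => (0 : ℝ)) 0 = 0 := by
    have := iteratedFDeriv_fun_zero (𝕜 := ℝ) (n := p) (E := V) (F := ℝ)
    rw [this]; rfl
  rw [h4] at h1
  have h5 : (Fintype.card (Equiv.Perm (Fin p)) : ℝ) ≠ 0 := by
    have := Fintype.card_pos (α := Equiv.Perm (Fin p))
    positivity
  have h6 : (0 : ℝ) = (Fintype.card (Equiv.Perm (Fin p)) : ℝ) * φ X := by simpa using h1
  simpa [h5] using h6.symm

end

/-! ### first and second derivative forms -/

/-- `D_x(v) = Σ_a φ(x,…,v,…,x)` -/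
noncomputable def D1 {p : ℕ} (φ : Ten V p) (x : V) : V →ₗ[ℝ] ℝ where
  toFun v := ∑ a, φ (Function.update (fun _ => x) a v)
  map_add' v w := by
    simp only [MultilinearMap.map_update_add, sum_add_distrib]
  map_smul' c v := by
    simp only [MultilinearMap.map_update_smul, smul_eq_mul, mul_sum, RingHom.id_apply]

lemma D1_apply {p : ℕ} (φ : Ten V p) (x v : V) :
    D1 φ x v = ∑ a, φ (Function.update (fun _ => x) a v) := rfl

lemma D1_self {p : ℕ} (φ : Ten V p) (x : V) : D1 φ x x = p * φ (fun _ => x) := by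
  rw [D1_apply]
  have : ∀ a : Fin p, Function.update (fun _ : Fin p => x) a x = fun _ => x := by
    intro a
    exact Function.update_eq_self a _
  simp

/-- `H_x(v,w) = Σ_{a≠b} φ(x,…,v,…,w,…,x)` -/
noncomputable def H2 {p : ℕ} (φ : Ten V p) (x : V) : V →ₗ[ℝ] V →ₗ[ℝ] ℝ :=
  LinearMap.mk₂ ℝ (fun v w => ∑ a : Fin p, ∑ b ∈ univ.erase a,
      φ (Function.update (Function.update (fun _ => x) a v) b w))
    (by
      intro v v' w
      rw [← sum_add_distrib]
      apply sum_congr rfl
      intro a _
      rw [← sum_add_distrib]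
      apply sum_congr rfl
      intro b hb
      have hab : a ≠ b := (ne_of_mem_erase hb).symm
      rw [Function.update_comm hab, Function.update_comm hab, Function.update_comm hab,
        MultilinearMap.map_update_add])
    (by
      intro c v w
      rw [smul_eq_mul, mul_sum]
      apply sum_congr rfl
      intro a _
      rw [mul_sum]
      apply sum_congr rfl
      intro b hb
      have hab : a ≠ b := (ne_of_mem_erase hb).symm
      rw [Function.update_comm hab, Function.update_comm hab,
        MultilinearMap.map_update_smul, smul_eq_mul])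
    (by
      intro v w w'
      rw [← sum_add_distrib]
      apply sum_congr rfl
      intro a _
      rw [← sum_add_distrib]
      apply sum_congr rfl
      intro b hb
      rw [MultilinearMap.map_update_add])
    (by
      intro c v w
      rw [smul_eq_mul, mul_sum]
      apply sum_congr rfl
      intro a _
      rw [mul_sum]
      apply sum_congr rfl
      intro b hb
      rw [MultilinearMap.map_update_smul, smul_eq_mul])

lemma H2_apply {p : ℕ} (φ : Ten V p) (x v w : V) :
    H2 φ x v w = ∑ a : Fin p, ∑ b ∈ univ.erase a,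
      φ (Function.update (Function.update (fun _ => x) a v) b w) := rfl

lemma H2_self {p : ℕ} (φ : Ten V p) (x : V) :
    H2 φ x x x = p * (p - 1) * φ (fun _ => x) := by
  rw [H2_apply]
  have : ∀ a : Fin p, Function.update (fun _ : Fin p => x) a x = fun _ => x := by
    intro a
    exact Function.update_eq_self a _
  simp only [this, sum_const, card_erase_of_mem (mem_univ _), card_univ, Fintype.card_fin,
    nsmul_eq_mul]
  rcases p with _ | p
  · simp
  · push_cast
    simp
    ring

lemma DA_diag {p : ℕ} (A : V →ₗ[ℝ] V) (φ : Ten V p) (x : V) :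
    DA A φ (fun _ => x) = D1 φ x (A x) := by
  rw [DA_apply, D1_apply]

lemma DA_DA_diag {p : ℕ} (A B : V →ₗ[ℝ] V) (φ : Ten V p) (x : V) :
    DA A (DA B φ) (fun _ => x) = H2 φ x (A x) (B x) + D1 φ x (B (A x)) := by
  rw [DA_apply, H2_apply, D1_apply, ← sum_add_distrib]
  apply sum_congr rfl
  intro a _
  rw [DA_apply, ← sum_erase_add _ _ (mem_univ a)]
  congr 1
  · apply sum_congr rfl
    intro b hb
    rw [Function.update_of_ne (ne_of_mem_erase hb)]
  · rw [Function.update_self, Function.update_idem]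

section
variable {n : ℕ} (e : OrthonormalBasis (Fin n) ℝ V)

lemma Kop_diag {p : ℕ} (R : V →ₗ[ℝ] V →ₗ[ℝ] V →ₗ[ℝ] V) (φ : Ten V p) (x : V) :
    Kop e R φ (fun _ => x) = -∑ i, (H2 φ x (e i) (R (e i) x x) + D1 φ x (R (e i) x (e i))) := by
  rw [Kop_apply, _root_.neg_apply, _root_.sum_apply]
  congr 1
  apply sum_congr rfl
  intro i _
  rw [_root_.sum_apply]
  simp only [DA_DA_diag, rk_apply, map_smul, LinearMap.smul_apply, smul_eq_mul, sum_add_distrib]
  have h1 : R (e i) x = ∑ j, (inner ℝ (e j) x : ℝ) • R (e i) (e j) := by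
    conv_lhs => rw [expand e x]
    rw [map_sum]
    simp only [map_smul]
  have h2 : ∀ z, R (e i) x z = ∑ j, (inner ℝ (e j) x : ℝ) • R (e i) (e j) z := by
    intro z
    rw [h1, LinearMap.sum_apply]
    simp only [LinearMap.smul_apply]
  rw [h2 x, h2 (e i)]
  simp only [map_sum, map_smul, smul_eq_mul]

/-- the bilinear form whose trace is `-K φ (x,…,x)` -/
noncomputable def BK {p : ℕ} (R : V →ₗ[ℝ] V →ₗ[ℝ] V →ₗ[ℝ] V) (φ : Ten V p) (x : V) :
    V →ₗ[ℝ] V →ₗ[ℝ] ℝ :=
  LinearMap.mk₂ ℝ (fun v w => H2 φ x w (R v x x) + D1 φ x (R v x w))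
    (by intro v v' w; simp only [map_add, LinearMap.add_apply]; ring)
    (by intro c v w; simp only [map_smul, LinearMap.smul_apply, smul_eq_mul]; ring)
    (by intro v w w'; simp only [map_add, LinearMap.add_apply]; ring)
    (by intro c v w; simp only [map_smul, LinearMap.smul_apply, smul_eq_mul]; ring)

lemma Kop_diag_indep {p : ℕ} (R : V →ₗ[ℝ] V →ₗ[ℝ] V →ₗ[ℝ] V) (φ : Ten V p) (x : V)
    (e' : OrthonormalBasis (Fin n) ℝ V) :
    Kop e R φ (fun _ => x) =
      -∑ i, (H2 φ x (e' i) (R (e' i) x x) + D1 φ x (R (e' i) x (e' i))) := by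
  rw [Kop_diag]
  congr 1
  exact sum_basis_indep (BK R φ x) e e'

end

end Pool.Agent.Work.MP_b296c2_gt
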