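import Mathlib
import Pool.Agent.Work.MP_b296c2_gt.Diag

namespace Pool.Agent.Work.MP_b296c2_gt

open Finset Polynomial

variable {V : Type*} [NormedAddCommGroup V] [InnerProductSpace ℝ V]

/-! ### an endpoint Markov inequality -/

lemma deg_C_mul_le (a : ℝ) (P : ℝ[X]) : (C a * P).degree ≤ P.degree := by
  rw [← smul_eq_C_mul]; exact degree_smul_le a P

lemma markov_endpoint {p : ℕ} {P : ℝ[X]} {M : ℝ} (hM : 0 < M) (hdeg : P.degree ≤ p)
    (hb : ∀ c ∈ Set.Icc (-1 : ℝ) 1, |P.eval c| ≤ M) :
    (derivative P).eval 1 ≤ (p : ℝ) ^ 2 * M := by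
  have h := Polynomial.Chebyshev.eval_iterate_derivative_le_of_forall_abs_le_one
    (n := p) (P := C (1 / M) * P) (k := 1) (x := 1) le_rfl
    (by
      refine le_trans (deg_C_mul_le _ _) hdeg)
    (by
      intro c hc
      rw [eval_mul, eval_C, abs_mul, abs_of_pos (by positivity : 0 < 1 / M)]
      have := hb c hc
      rw [one_div, inv_mul_le_iff₀ hM]
      simpa using this)
  simp only [Function.iterate_one, derivative_C_mul, eval_mul, eval_C] at h
  rw [Polynomial.Chebyshev.derivative_T_eval_one] at h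
  rw [one_div, inv_mul_le_iff₀ hM] at h
  push_cast at h
  linarith

lemma deriv_endpoint_nonneg {P : ℝ[X]} {M : ℝ}
    (hb : ∀ c ∈ Set.Icc (-1 : ℝ) 1, P.eval c ≤ M) (h1 : P.eval 1 = M) :
    0 ≤ (derivative P).eval 1 := by
  have h := (P.hasDerivAt 1).hasDerivWithinAt (s := Set.Iio 1)
  rw [hasDerivWithinAt_iff_tendsto_slope' (by simp)] at h
  refine ge_of_tendsto h ?_
  have hmem : Set.Ioo (-1 : ℝ) 1 ∈ nhdsWithin (1 : ℝ) (Set.Iio 1) :=
    Ioo_mem_nhdsLT (by norm_num)
  filter_upwards [hmem] with c hc
  rw [slope_def_field]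
  have := hb c ⟨hc.1.le, hc.2.le⟩
  apply div_nonneg_of_nonpos
  · rw [h1]; linarith
  · linarith [hc.2]

/-! ### restriction to great circles -/

lemma expand_curve {p : ℕ} (φ : Ten V p) (x u : V) (c s : ℝ) :
    φ (fun _ => c • x + s • u) = ∑ S : Finset (Fin p),
      s ^ S.card * c ^ (p - S.card) * φ (S.piecewise (fun _ => u) (fun _ => x)) := by
  have h1 : (fun _ : Fin p => c • x + s • u) = (fun _ => s • u) + (fun _ => c • x) := by
    funext a; simp [add_comm]
  rw [h1, MultilinearMap.map_add_univ]
  apply sum_congr rfl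
  intro S _
  have h2 : S.piecewise (fun _ : Fin p => s • u) (fun _ => c • x) =
      fun a => (S.piecewise (fun _ => s) (fun _ => c) a) •
        (S.piecewise (fun _ => u) (fun _ => x) a : V) := by
    funext a
    by_cases h : a ∈ S <;> simp [h]
  rw [h2, MultilinearMap.map_smul_univ, smul_eq_mul]
  congr 1
  rw [Finset.prod_piecewise]
  simp [Finset.card_sdiff_of_subset]

lemma exists_poly {p : ℕ} (φ : Ten V p) (x u : V) :
    ∃ P : ℝ[X], P.degree ≤ p ∧ ∀ t : ℝ, P.eval (Real.cos t) =
      (φ (fun _ => Real.cos t • x + Real.sin t • u) +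
        φ (fun _ => Real.cos t • x + (-Real.sin t) • u)) / 2 := by
  classical
  refine ⟨∑ S : Finset (Fin p), if Even S.card then
    C (φ (S.piecewise (fun _ => u) (fun _ => x))) *
      (X ^ (p - S.card) * (1 - X ^ 2) ^ (S.card / 2)) else 0, ?_, ?_⟩
  · refine le_trans (degree_sum_le _ _) ?_
    rw [Finset.sup_le_iff]
    intro S _
    split_ifs with hS
    · refine le_trans (deg_C_mul_le _ _) ?_
      rw [degree_mul, degree_X_pow, degree_pow]
      have h1 : ((1 : ℝ[X]) - X ^ 2).degree ≤ 2 := by
        compute_degree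
      have hc : S.card ≤ p := by simpa using card_le_univ S
      obtain ⟨r, hr⟩ := hS
      have h2 : S.card / 2 = r := by omega
      rw [h2]
      calc ((p - S.card : ℕ) : WithBot ℕ) + r • ((1 : ℝ[X]) - X ^ 2).degree
          ≤ ((p - S.card : ℕ) : WithBot ℕ) + r • (2 : WithBot ℕ) := by gcongr
        _ = ((p - S.card + r * 2 : ℕ) : WithBot ℕ) := by
            rw [nsmul_eq_mul]; push_cast; rfl
        _ ≤ p := by
            rw [Nat.cast_le]
            omega
    · simp
  · intro t
    rw [expand_curve, expand_curve, ← sum_add_distrib, sum_div, eval_finsetSum]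
    apply sum_congr rfl
    intro S _
    split_ifs with hS
    · rw [hS.neg_pow]
      simp only [eval_mul, eval_C, eval_pow, eval_X, eval_sub, eval_one]
      obtain ⟨r, hr⟩ := hS
      have h2 : S.card / 2 = r := by omega
      rw [h2]
      have h3 : Real.sin t ^ S.card = (1 - Real.cos t ^ 2) ^ r := by
        rw [← Real.sin_sq, ← pow_mul, hr]; congr 1; ring
      rw [h3]
      ring
    · rw [Nat.not_even_iff_odd] at hS
      rw [hS.neg_pow]
      simp

/-! ### second derivative along a great circle -/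

lemma circle_deriv {p : ℕ} {n : ℕ} (e : OrthonormalBasis (Fin n) ℝ V) (φ : Ten V p) (x u : V)
    (A : V →ₗ[ℝ] V) (hAx : A x = u) (hAu : A u = -x) (t : ℝ) :
    HasDerivAt (fun s => φ (fun _ => Real.cos s • x + Real.sin s • u))
      (DA A φ (fun _ => Real.cos t • x + Real.sin t • u)) t := by
  have h1 : HasDerivAt (fun s : ℝ => Real.cos s • x + Real.sin s • u)
      ((-Real.sin t) • x + Real.cos t • u) t :=
    ((Real.hasDerivAt_cos t).smul_const x).add ((Real.hasDerivAt_sin t).smul_const u)
  have h2 := hasDerivAt_diag e φ _ _ t h1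
  convert h2 using 1
  rw [DA_apply]
  apply sum_congr rfl
  intro a _
  congr 2
  rw [map_add, map_smul, map_smul, hAx, hAu]
  simp [add_comm]

lemma circle_poly {p n : ℕ} (e : OrthonormalBasis (Fin n) ℝ V) (φ : Ten V p) (x u : V)
    (A : V →ₗ[ℝ] V) (hAx : A x = u) (hAu : A u = -x) (P : ℝ[X])
    (hP : ∀ t : ℝ, P.eval (Real.cos t) =
      (φ (fun _ => Real.cos t • x + Real.sin t • u) +
        φ (fun _ => Real.cos t • x + (-Real.sin t) • u)) / 2) :
    (derivative P).eval 1 = -DA A (DA A φ) (fun _ => x) := by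
  -- first derivative
  have neg_curve : ∀ (ψ : Ten V p) (t : ℝ), HasDerivAt
      (fun s => ψ (fun _ => Real.cos s • x + (-Real.sin s) • u))
      (-(DA A ψ (fun _ => Real.cos t • x + (-Real.sin t) • u))) t := by
    intro ψ t
    have h1 := circle_deriv e ψ x u A hAx hAu (-t)
    have h2 := h1.scomp t (hasDerivAt_neg t)
    simp only [Real.cos_neg, Real.sin_neg, Function.comp_def, neg_smul, one_smul] at h2
    simpa using h2
  have hd1 : ∀ t : ℝ, -Real.sin t * (derivative P).eval (Real.cos t) =
      (DA A φ (fun _ => Real.cos t • x + Real.sin t • u) -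
        DA A φ (fun _ => Real.cos t • x + (-Real.sin t) • u)) / 2 := by
    intro t
    have h1 : HasDerivAt (fun t => P.eval (Real.cos t))
        ((derivative P).eval (Real.cos t) * -Real.sin t) t :=
      (P.hasDerivAt (Real.cos t)).comp t (Real.hasDerivAt_cos t)
    have h2 : HasDerivAt (fun t => P.eval (Real.cos t))
        ((DA A φ (fun _ => Real.cos t • x + Real.sin t • u) +
          -(DA A φ (fun _ => Real.cos t • x + (-Real.sin t) • u))) / 2) t := by
      rw [show (fun t => P.eval (Real.cos t)) = _ from funext hP]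
      exact ((circle_deriv e φ x u A hAx hAu t).add (neg_curve φ t)).div_const 2
    have := h1.unique h2
    rw [mul_comm, this]; ring
  have h1 : HasDerivAt (fun t => -Real.sin t * (derivative P).eval (Real.cos t))
      (-Real.cos 0 * (derivative P).eval (Real.cos 0) +
        -Real.sin 0 * ((derivative (derivative P)).eval (Real.cos 0) * -Real.sin 0)) 0 :=
    ((Real.hasDerivAt_sin 0).neg).mul
      (((derivative P).hasDerivAt (Real.cos 0)).comp 0 (Real.hasDerivAt_cos 0))
  have h2 : HasDerivAt (fun t => -Real.sin t * (derivative P).eval (Real.cos t))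
      ((DA A (DA A φ) (fun _ => Real.cos 0 • x + Real.sin 0 • u) -
          -(DA A (DA A φ) (fun _ => Real.cos 0 • x + (-Real.sin 0) • u))) / 2) 0 := by
    rw [show (fun t => -Real.sin t * (derivative P).eval (Real.cos t)) = _ from funext hd1]
    exact ((circle_deriv e (DA A φ) x u A hAx hAu 0).sub (neg_curve (DA A φ) 0)).div_const 2
  have h3 := h1.unique h2
  simp at h3
  linarith

end Pool.Agent.Work.MP_b296c2_gt
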