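import Mathlib
import Pool.Agent.Work.MP_b296c2_gt.Max

namespace Pool.Agent.Work.MP_b296c2_gt

open Finset Polynomial

variable {V : Type*} [NormedAddCommGroup V] [InnerProductSpace ℝ V]

section
variable {n : ℕ} (e : OrthonormalBasis (Fin n) ℝ V)
include e

/-- Facts at a point where `|φ(x,…,x)|` is maximal on the unit sphere. -/
lemma circle_facts {p : ℕ} (φ : Ten V p) (x u : V) (hx : ‖x‖ = 1) (hu : ‖u‖ = 1)
    (hxu : (inner ℝ x u : ℝ) = 0) (hpos : 0 < φ (fun _ => x))
    (hmax : ∀ y : V, ‖y‖ = 1 → |φ (fun _ => y)| ≤ φ (fun _ => x)) :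
    D1 φ x u = 0 ∧ 0 ≤ p * φ (fun _ => x) - H2 φ x u u ∧
      p * φ (fun _ => x) - H2 φ x u u ≤ (p : ℝ) ^ 2 * φ (fun _ => x) := by
  set A : V →ₗ[ℝ] V := rk u x - rk x u with hA
  have hxx : (inner ℝ x x : ℝ) = 1 := by rw [real_inner_self_eq_norm_sq, hx]; norm_num
  have huu : (inner ℝ u u : ℝ) = 1 := by rw [real_inner_self_eq_norm_sq, hu]; norm_num
  have hux : (inner ℝ u x : ℝ) = 0 := by rw [real_inner_comm, hxu]
  have hAx : A x = u := by
    rw [hA, LinearMap.sub_apply, rk_apply, rk_apply, hxx, hux]; simp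
  have hAu : A u = -x := by
    rw [hA, LinearMap.sub_apply, rk_apply, rk_apply, huu, hxu]; simp
  have hnorm : ∀ c s : ℝ, c ^ 2 + s ^ 2 = 1 → ‖c • x + s • u‖ = 1 := by
    intro c s hcs
    have h1 : ‖c • x + s • u‖ ^ 2 = 1 := by
      rw [← real_inner_self_eq_norm_sq]
      simp only [inner_add_left, inner_add_right, inner_smul_left, inner_smul_right, hxx, huu,
        hxu, hux, conj_trivial]
      linarith [hcs]
    have h2 : 0 ≤ ‖c • x + s • u‖ := norm_nonneg _
    nlinarith [sq_nonneg (‖c • x + s • u‖ - 1)]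
  obtain ⟨P, hdeg, hP⟩ := exists_poly φ x u
  have hder := circle_poly e φ x u A hAx hAu P hP
  rw [DA_DA_diag, hAx, hAu, map_neg, D1_self] at hder
  have hP1 : P.eval 1 = φ (fun _ => x) := by
    have := hP 0
    simpa using this
  have hb : ∀ c ∈ Set.Icc (-1 : ℝ) 1, |P.eval c| ≤ φ (fun _ => x) := by
    intro c hc
    have h := hP (Real.arccos c)
    rw [Real.cos_arccos hc.1 hc.2] at h
    have hcs : c ^ 2 + Real.sin (Real.arccos c) ^ 2 = 1 := by
      have := Real.sin_sq_add_cos_sq (Real.arccos c)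
      rw [Real.cos_arccos hc.1 hc.2] at this
      linarith
    rw [h, abs_div, abs_two, div_le_iff₀ (by norm_num)]
    have a1 := hmax _ (hnorm c (Real.sin (Real.arccos c)) hcs)
    have a2 := hmax _ (hnorm c (-Real.sin (Real.arccos c)) (by rw [neg_sq]; exact hcs))
    refine le_trans (abs_add_le _ _) ?_
    linarith
  refine ⟨?_, ?_, ?_⟩
  · have h1 := circle_deriv e φ x u A hAx hAu 0
    have h2 : IsLocalMax (fun s => φ (fun _ => Real.cos s • x + Real.sin s • u)) 0 := by
      apply Filter.Eventually.of_forall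
      intro s
      simp only [Real.cos_zero, Real.sin_zero, one_smul, zero_smul, add_zero]
      refine le_trans (le_abs_self _) (hmax _ (hnorm _ _ ?_))
      have := Real.sin_sq_add_cos_sq s
      linarith
    have h3 := h2.hasDerivAt_eq_zero h1
    simp only [Real.cos_zero, Real.sin_zero, one_smul, zero_smul, add_zero] at h3
    rw [DA_diag, hAx] at h3
    exact h3
  · have h1 := deriv_endpoint_nonneg (P := P) (M := φ (fun _ => x))
      (fun c hc => le_trans (le_abs_self _) (hb c hc)) hP1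
    rw [hder] at h1
    linarith
  · have h1 := markov_endpoint hpos hdeg hb
    rw [hder] at h1
    linarith

end

/-- The key estimate at a maximum point. -/
lemma max_point {m p k : ℕ} (e : OrthonormalBasis (Fin (m + 1)) ℝ V)
    {R : V →ₗ[ℝ] V →ₗ[ℝ] V →ₗ[ℝ] V} (hR : IsCurvatureTensor R) (hp : 1 ≤ p) (hk : 1 ≤ k)
    (hkm : k ≤ m) (hkp : k * p ≤ m + p - 1) (hsec : KNonnegSec (m + 1) k R)
    (φ : Ten V p) (x : V) (hx : ‖x‖ = 1) (hpos : 0 < φ (fun _ => x))
    (hmax : ∀ y : V, ‖y‖ = 1 → |φ (fun _ => y)| ≤ φ (fun _ => x))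
    (htr : ∑ i, H2 φ x (e i) (e i) = 0) :
    0 ≤ Kop e R φ (fun _ => x) := by
  set M := φ (fun _ => x) with hMdef
  have hsymJ : ∀ v w, (inner ℝ (R v x x) w : ℝ) = inner ℝ (R w x x) v := by
    intro v w
    rw [pair_symm hR, hR.anti, inner_neg_left, hR.skew, neg_neg, real_inner_comm]
  have hRxx : ∀ z, R x x z = 0 := by
    intro z
    have h := hR.anti x x z
    have h2 : (2 : ℝ) • R x x z = 0 := by
      rw [two_smul]; nth_rewrite 1 [h]; simp
    simpa using h2
  let J : V →ₗ[ℝ] V :=
    { toFun := fun v => R v x x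
      map_add' := by intro v w; simp
      map_smul' := by intro c v; simp }
  have hJdef : ∀ v, J v = R v x x := fun v => rfl
  obtain ⟨f, hf0, hfe⟩ := exists_frame e x hx J
    (by intro v w; rw [hJdef, hJdef, hsymJ, real_inner_comm])
    (by rw [hJdef, hRxx])
  choose c hc using hfe
  have hinner : ∀ i j, (inner ℝ (f i) (f j) : ℝ) = if i = j then 1 else 0 := f.inner_eq_ite
  have hnorm : ∀ i, ‖f i‖ = 1 := fun i => f.norm_eq_one i
  have hxf : ∀ j : Fin m, (inner ℝ x (f j.succ) : ℝ) = 0 := by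
    intro j
    rw [← hf0, hinner, if_neg (Fin.succ_ne_zero j).symm]
  have hxx : (inner ℝ x x : ℝ) = 1 := by rw [real_inner_self_eq_norm_sq, hx]; norm_num
  have hfacts := fun j : Fin m => circle_facts e φ x (f j.succ) hx (hnorm _) (hxf j) hpos hmax
  -- first order condition for all vectors
  have hD : ∀ v, D1 φ x v = (inner ℝ x v : ℝ) * (p * M) := by
    intro v
    conv_lhs => rw [expand f v]
    rw [map_sum, Fin.sum_univ_succ]
    simp only [map_smul, smul_eq_mul]
    rw [hf0, D1_self, sum_eq_zero (fun j _ => by rw [(hfacts j).1, mul_zero]), add_zero]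
  have hcj : ∀ j : Fin m, c j.succ = sec R (f 0) (f j.succ) := by
    intro j
    unfold sec
    have h1 : (inner ℝ (R (f j.succ) x x) (f j.succ) : ℝ) = c j.succ := by
      have := hc j.succ
      rw [hJdef] at this
      rw [this, inner_smul_left, hinner]
      simp
    rw [hf0, ← h1, pair_symm hR]
  have hK : Kop e R φ (fun _ => x) =
      ∑ j : Fin m, (p * M - H2 φ x (f j.succ) (f j.succ)) * c j.succ := by
    rw [Kop_diag_indep e R φ x f, Fin.sum_univ_succ]
    have h0 : H2 φ x (f 0) (R (f 0) x x) + D1 φ x (R (f 0) x (f 0)) = 0 := by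
      rw [hf0, hRxx]; simp
    rw [h0, zero_add, ← sum_neg_distrib]
    apply sum_congr rfl
    intro j _
    have h1 : R (f j.succ) x x = c j.succ • f j.succ := hc j.succ
    have h2 : (inner ℝ x (R (f j.succ) x (f j.succ)) : ℝ) = -c j.succ := by
      rw [real_inner_comm, hR.skew, h1, inner_smul_right, hinner]
      simp
    rw [hD, h2, h1, map_smul, smul_eq_mul]
    ring
  have htr' : ∑ i, H2 φ x (f i) (f i) = 0 := by
    rw [← htr]
    exact sum_basis_indep (H2 φ x) f e
  have hsum : ∑ j : Fin m, (p * M - H2 φ x (f j.succ) (f j.succ)) = p * (m + p - 1) * M := by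
    rw [Fin.sum_univ_succ, hf0, H2_self, ← hMdef] at htr'
    rw [sum_sub_distrib, sum_const, card_univ, Fintype.card_fin, nsmul_eq_mul]
    have h3 : ∑ j : Fin m, H2 φ x (f j.succ) (f j.succ) = -(p * (p - 1) * M) := by linarith
    rw [h3]; ring
  have hppos : (0 : ℝ) < p := by exact_mod_cast hp
  have hpM : 0 < (p : ℝ) ^ 2 * M := by positivity
  have hw : 0 ≤ ∑ j : Fin m, ((p * M - H2 φ x (f j.succ) (f j.succ)) / ((p : ℝ) ^ 2 * M)) *
      c j.succ := by
    apply weighted_sum_nonneg k hk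
    · simpa using hkm
    · intro A hA
      have h1 := hsec f (A.map ⟨fun j => ((0 : Fin (m + 1)), j.succ), by
        intro a b hab
        simpa using hab⟩) (by
        intro q hq
        rw [mem_map] at hq
        obtain ⟨j, _, rfl⟩ := hq
        exact Fin.succ_pos j) (by rw [card_map, hA])
      rw [sum_map] at h1
      have h2 : ∑ i ∈ A, c i.succ = ∑ i ∈ A, sec R (f 0) (f i.succ) :=
        sum_congr rfl (fun j _ => hcj j)
      rw [h2]
      exact h1
    · intro j
      exact div_nonneg (hfacts j).2.1 hpM.le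
    · intro j
      rw [div_le_one hpM]
      exact (hfacts j).2.2
    · rw [← sum_div, hsum, le_div_iff₀ hpM]
      have h1 : (k : ℝ) * p ≤ m + p - 1 := by
        have : k * p + 1 ≤ m + p := by omega
        have : (k : ℝ) * p + 1 ≤ m + p := by exact_mod_cast this
        linarith
      have : (k : ℝ) * p * (p * M) ≤ (m + p - 1) * (p * M) :=
        mul_le_mul_of_nonneg_right h1 (by positivity)
      nlinarith
  have h2 : ∑ j : Fin m, ((p * M - H2 φ x (f j.succ) (f j.succ)) / ((p : ℝ) ^ 2 * M)) *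
      c j.succ = (∑ j : Fin m, (p * M - H2 φ x (f j.succ) (f j.succ)) * c j.succ) /
        ((p : ℝ) ^ 2 * M) := by
    rw [sum_div]
    apply sum_congr rfl
    intro j _
    ring
  rw [h2] at hw
  rw [hK]
  have := mul_nonneg hw hpM.le
  rwa [div_mul_cancel₀ _ hpM.ne'] at this

end Pool.Agent.Work.MP_b296c2_gt
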