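import Mathlib
import Pool.Agent.Work.MP_b296c2_gt.Core

namespace Pool.Agent.Work.MP_b296c2_gt

open Finset

variable {V : Type*} [NormedAddCommGroup V] [InnerProductSpace ℝ V]

/-- A symmetric tensor evaluated with two distinguished arguments. -/
lemma sym_update {q : ℕ} {φ : Ten V (q + 2)} (h : IsSymmTensor φ) {a b : Fin (q + 2)}
    (hab : a ≠ b) (x v w : V) :
    φ (Function.update (Function.update (fun _ => x) a v) b w) =
      φ (Fin.cons v (Fin.cons w (fun _ => x) : Fin (q + 1) → V)) := by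
  set b' := Equiv.swap a 0 b with hb'
  have hb0 : b' ≠ 0 := by
    intro h0
    have : Equiv.swap a 0 b = Equiv.swap a 0 a := by rw [← hb', h0, Equiv.swap_apply_left]
    exact hab ((Equiv.swap a 0).injective this).symm
  set σ : Equiv.Perm (Fin (q + 2)) := Equiv.swap b' 1 * Equiv.swap a 0 with hσ
  have h01 : (0 : Fin (q + 2)) ≠ 1 := by
    intro h; have := congrArg Fin.val h; simp at this
  have hσa : σ a = 0 := by
    rw [hσ, Equiv.Perm.mul_apply, Equiv.swap_apply_left, Equiv.swap_apply_of_ne_of_ne hb0.symm h01]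
  have hσb : σ b = 1 := by
    rw [hσ, Equiv.Perm.mul_apply, ← hb', Equiv.swap_apply_left]
  rw [← h σ (Fin.cons v (Fin.cons w (fun _ => x) : Fin (q + 1) → V))]
  congr 1
  funext c
  by_cases hcb : c = b
  · subst hcb
    rw [Function.update_self, hσb]
    rfl
  · rw [Function.update_of_ne hcb]
    by_cases hca : c = a
    · subst hca
      rw [Function.update_self, hσa]
      rfl
    · rw [Function.update_of_ne hca]
      have h1 : σ c ≠ 0 := by rw [← hσa]; exact fun h => hca (σ.injective h)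
      have h2 : σ c ≠ 1 := by rw [← hσb]; exact fun h => hcb (σ.injective h)
      obtain ⟨d, hd⟩ := Fin.exists_succ_eq.2 h1
      have hd0 : d ≠ 0 := by
        intro h0; rw [h0] at hd; exact h2 hd.symm
      obtain ⟨d', hd'⟩ := Fin.exists_succ_eq.2 hd0
      rw [← hd, Fin.cons_succ, ← hd', Fin.cons_succ]

lemma H2_trace_of_tr {n q : ℕ} (e : OrthonormalBasis (Fin n) ℝ V) {φ : Ten V (q + 2)}
    (h : IsSymmTensor φ) (htr : tr e φ = 0) (x : V) : ∑ i, H2 φ x (e i) (e i) = 0 := by
  simp only [H2_apply]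
  rw [sum_comm]
  apply sum_eq_zero
  intro a _
  rw [sum_comm]
  apply sum_eq_zero
  intro b hb
  have hab : a ≠ b := (ne_of_mem_erase hb).symm
  simp only [sym_update h hab]
  rw [← tr_apply, htr]
  rfl

lemma H2_trace_one {n : ℕ} (e : OrthonormalBasis (Fin n) ℝ V) (φ : Ten V 1) (x : V) :
    ∑ i, H2 φ x (e i) (e i) = 0 := by
  apply sum_eq_zero
  intro i _
  rw [H2_apply]
  apply sum_eq_zero
  intro a _
  apply sum_eq_zero
  intro b hb
  exact absurd (Subsingleton.elim b a) (ne_of_mem_erase hb)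

lemma Kop_zero_tensor {n : ℕ} (e : OrthonormalBasis (Fin n) ℝ V)
    (R : V →ₗ[ℝ] V →ₗ[ℝ] V →ₗ[ℝ] V) (φ : Ten V 0) : Kop e R φ = 0 := by
  rw [Kop_apply, neg_eq_zero]
  apply sum_eq_zero
  intro i _
  apply sum_eq_zero
  intro j _
  ext X
  rw [DA_apply]
  simp

lemma H2_neg {p : ℕ} (φ : Ten V p) (x v w : V) : H2 (-φ) x v w = -H2 φ x v w := by
  simp only [H2_apply, _root_.neg_apply, sum_neg_distrib]

lemma eig_nonneg_traceless {m p k : ℕ} (e : OrthonormalBasis (Fin (m + 1)) ℝ V)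
    {R : V →ₗ[ℝ] V →ₗ[ℝ] V →ₗ[ℝ] V} (hR : IsCurvatureTensor R) (hp : 1 ≤ p) (hk : 1 ≤ k)
    (hkm : k ≤ m) (hkp : k * p ≤ m + p - 1) (hsec : KNonnegSec (m + 1) k R)
    {φ : Ten V p} (hφ : IsSymmTensor φ) (hne : φ ≠ 0)
    (htr : ∀ x, ∑ i, H2 φ x (e i) (e i) = 0) {lam : ℝ} (hlam : Kop e R φ = lam • φ) :
    0 ≤ lam := by
  have hfr : Module.finrank ℝ V = m + 1 := by
    rw [Module.finrank_eq_card_basis e.toBasis]; simp
  have : Fact (Module.finrank ℝ V = m + 1) := ⟨hfr⟩
  have : FiniteDimensional ℝ V := .of_fact_finrank_eq_succ m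
  have hcpt : IsCompact (Metric.sphere (0 : V) 1) := isCompact_sphere 0 1
  have hnon : (Metric.sphere (0 : V) 1).Nonempty := ⟨e 0, by simp [e.norm_eq_one]⟩
  obtain ⟨x, hxS, hxmax⟩ := hcpt.exists_isMaxOn hnon
    (continuous_abs.comp (diag_continuous e φ)).continuousOn
  have hx : ‖x‖ = 1 := by simpa using hxS
  have hmax : ∀ y : V, ‖y‖ = 1 → |φ (fun _ => y)| ≤ |φ (fun _ => x)| := by
    intro y hy
    exact hxmax (by simpa using hy)
  -- nonvanishing
  have hnz : φ (fun _ => x) ≠ 0 := by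
    intro h0
    apply hne
    apply sym_zero_of_diag e hφ
    intro y
    by_cases hy : y = 0
    · subst hy
      exact φ.map_coord_zero (⟨0, hp⟩ : Fin p) rfl
    · have hny : ‖y‖ ≠ 0 := norm_ne_zero_iff.2 hy
      have h1 := hmax (‖y‖⁻¹ • y) (by rw [norm_smul, norm_inv, norm_norm, inv_mul_cancel₀ hny])
      rw [h0, abs_zero] at h1
      have h2 : φ (fun _ => ‖y‖⁻¹ • y) = 0 := abs_eq_zero.1 (le_antisymm h1 (abs_nonneg _))
      have h3 : φ (fun _ => y) = (∏ _i : Fin p, ‖y‖) • φ (fun _ => ‖y‖⁻¹ • y) := by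
        rw [← MultilinearMap.map_smul_univ]
        congr 1
        funext a
        rw [smul_smul, mul_inv_cancel₀ hny, one_smul]
      rw [h3, h2, smul_zero]
  rcases lt_or_gt_of_ne hnz with hneg | hpos
  · have hmax' : ∀ y : V, ‖y‖ = 1 → |(-φ) (fun _ => y)| ≤ (-φ) (fun _ => x) := by
      intro y hy
      have := hmax y hy
      rw [abs_of_neg hneg] at this
      rw [_root_.neg_apply, _root_.neg_apply, abs_neg]
      exact this
    have hpos' : 0 < (-φ) (fun _ => x) := by
      rw [_root_.neg_apply]; linarith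
    have h := max_point e hR hp hk hkm hkp hsec (-φ) x hx hpos' hmax' (by
      have := htr x
      simp only [H2_neg, sum_neg_distrib, this, neg_zero])
    rw [map_neg, hlam, _root_.neg_apply, _root_.smul_apply, smul_eq_mul] at h
    nlinarith
  · have hmax' : ∀ y : V, ‖y‖ = 1 → |φ (fun _ => y)| ≤ φ (fun _ => x) := by
      intro y hy
      have := hmax y hy
      rwa [abs_of_pos hpos] at this
    have h := max_point e hR hp hk hkm hkp hsec φ x hx hpos hmax' (htr x)
    rw [hlam, _root_.smul_apply, smul_eq_mul] at h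
    nlinarith

/-- All eigenvalues of the curvature term on symmetric tensors are nonnegative. -/
lemma eig_nonneg {m k : ℕ} (e : OrthonormalBasis (Fin (m + 1)) ℝ V)
    {R : V →ₗ[ℝ] V →ₗ[ℝ] V →ₗ[ℝ] V} (hR : IsCurvatureTensor R) (hk : 1 ≤ k)
    (hsec : KNonnegSec (m + 1) k R) (p : ℕ) (hkp : (k - 1) * p + 1 ≤ m)
    (φ : Ten V p) (hφ : IsSymmTensor φ) (hne : φ ≠ 0) (lam : ℝ)
    (hlam : Kop e R φ = lam • φ) : 0 ≤ lam := by
  induction p using Nat.strong_induction_on with
  | _ p ih =>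
    rcases p with _ | _ | q
    · rw [Kop_zero_tensor] at hlam
      rcases smul_eq_zero.1 hlam.symm with h | h
      · exact h.ge
      · exact absurd h hne
    · exact eig_nonneg_traceless e hR le_rfl hk (by omega) (by omega) hsec hφ hne
        (H2_trace_one e φ) hlam
    · have hkm : k ≤ m := by
        have : (k - 1) * 1 ≤ (k - 1) * (q + 1 + 1) := Nat.mul_le_mul_left _ (by omega)
        omega
      have hkp' : k * (q + 1 + 1) ≤ m + (q + 1 + 1) - 1 := by
        obtain ⟨j, rfl⟩ : ∃ j, k = j + 1 := ⟨k - 1, by omega⟩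
        rw [Nat.add_sub_cancel] at hkp
        rw [add_mul]
        omega
      by_cases htr : tr e φ = 0
      · exact eig_nonneg_traceless e hR (by omega) hk hkm hkp' hsec hφ hne
          (H2_trace_of_tr e hφ htr) hlam
      · refine ih q (by omega) ?_ (tr e φ) (tr_sym e hφ) htr ?_
        · have : (k - 1) * q ≤ (k - 1) * (q + 1 + 1) := Nat.mul_le_mul_left _ (by omega)
          omega
        · rw [← tr_Kop e hR hφ, hlam, map_smul]

/-- A symmetric operator all of whose eigenvalues are nonnegative is nonnegative. -/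
lemma psd_of_eig {n p : ℕ} (e : OrthonormalBasis (Fin n) ℝ V) (T : Ten V p →ₗ[ℝ] Ten V p)
    (hT : ∀ φ ψ, tin e (T φ) ψ = tin e φ (T ψ)) (hinv : ∀ φ ∈ symSub V p, T φ ∈ symSub V p)
    (heig : ∀ φ ∈ symSub V p, φ ≠ 0 → ∀ lam : ℝ, T φ = lam • φ → 0 ≤ lam) :
    ∀ φ ∈ symSub V p, 0 ≤ tin e (T φ) φ := by
  have hfin : Module.Finite ℝ V := Module.Finite.of_basis e.toBasis
  let core : InnerProductSpace.Core ℝ (symSub V p) :=
    { inner := fun φ ψ => tin e φ.1 ψ.1
      conj_inner_symm := fun φ ψ => by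
        simp only [conj_trivial]; exact tin_comm e _ _
      re_inner_nonneg := fun φ => by
        exact tin_self_nonneg e φ.1
      add_left := fun φ ψ χ => by
        exact tin_add_left e _ _ _
      smul_left := fun φ ψ c => by
        simp only [conj_trivial]; exact tin_smul_left e _ _ _
      definite := fun φ h => by
        exact Subtype.ext (tin_definite e φ.1 h) }
  let _ : NormedAddCommGroup (symSub V p) := core.toNormedAddCommGroup
  let _ : InnerProductSpace ℝ (symSub V p) := InnerProductSpace.ofCore core.toCore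
  have hin : ∀ φ ψ : symSub V p, (inner ℝ φ ψ : ℝ) = tin e φ.1 ψ.1 := fun _ _ => rfl
  let TW : symSub V p →ₗ[ℝ] symSub V p := T.restrict hinv
  have hsym : TW.IsSymmetric := fun φ ψ => by
    rw [hin, hin]; exact hT _ _
  intro φ hφ
  let b := hsym.eigenvectorBasis rfl
  have hb : ∀ i, 0 ≤ hsym.eigenvalues rfl i := by
    intro i
    have h1 := hsym.apply_eigenvectorBasis rfl i
    refine heig (b i).1 (b i).2 ?_ _ ?_
    · intro h0
      have h2 : b i = 0 := Subtype.ext h0
      have h3 := b.norm_eq_one i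
      rw [h2, norm_zero] at h3
      norm_num at h3
    · exact congrArg Subtype.val h1
  have h1 : tin e (T φ) φ = (inner ℝ (TW ⟨φ, hφ⟩) (⟨φ, hφ⟩ : symSub V p) : ℝ) := rfl
  rw [h1, ← b.sum_inner_mul_inner]
  apply sum_nonneg
  intro i _
  rw [hsym, hsym.apply_eigenvectorBasis rfl i, inner_smul_right, real_inner_comm]
  have := hb i
  have h2 : (0 : ℝ) ≤ (inner ℝ (b i) (⟨φ, hφ⟩ : symSub V p) : ℝ) *
    inner ℝ (b i) (⟨φ, hφ⟩ : symSub V p) := mul_self_nonneg _
  have h3 := mul_nonneg this h2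
  simp only [RCLike.ofReal_real_eq_id, id_eq]
  linarith

theorem bochner_nonneg {m p k : ℕ} (e : OrthonormalBasis (Fin (m + 1)) ℝ V)
    {R : V →ₗ[ℝ] V →ₗ[ℝ] V →ₗ[ℝ] V} (hR : IsCurvatureTensor R) (hk : 1 ≤ k)
    (hsec : KNonnegSec (m + 1) k R) (hkp : (k - 1) * p + 1 ≤ m)
    (φ : Ten V p) (hφ : IsSymmTensor φ) : 0 ≤ tensorInner e (bochnerTerm e R φ) φ := by
  have h := psd_of_eig e (Kop e R) (Kop_self_adjoint e hR) (fun φ h => Kop_sym e R h)
    (fun φ h1 h2 lam h3 => eig_nonneg e hR hk hsec p hkp φ h1 h2 lam h3) φ hφ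
  have h2 : bochnerTerm e R φ = Kop e R φ := funext (fun X => bochnerTerm_eq e R φ X)
  rw [h2]
  exact h

end Pool.Agent.Work.MP_b296c2_gt
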